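import Pool.Agent.GP66.Jc

/-!
Long chains in Kronecker products.
-/

namespace Pool.Agent.GP66

open Matrix Module Kronecker Pool.Agent.FS77

section
variable {K : Type*} [Field K] {V : Type*} [AddCommGroup V] [Module K V]

theorem two_chain [CharZero K] (X Y : Module.End K V) (hc : Commute X Y) (v : V) (s t : ℕ)
    (hX : (X ^ (s + 1)) v = 0) (hY : (Y ^ (t + 1)) v = 0) (hne : (X ^ s) ((Y ^ t) v) ≠ 0) :
    ((X + Y) ^ (s + t + 1)) v = 0 ∧ ((X + Y) ^ (s + t)) v ≠ 0 := by
  have hX' : ∀ i, s < i → (X ^ i) v = 0 := by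
    intro i hi
    obtain ⟨d, rfl⟩ := Nat.exists_eq_add_of_le (Nat.succ_le_of_lt hi)
    rw [add_comm, pow_add, Module.End.mul_apply, hX, map_zero]
  have hY' : ∀ i, t < i → (Y ^ i) v = 0 := by
    intro i hi
    obtain ⟨d, rfl⟩ := Nat.exists_eq_add_of_le (Nat.succ_le_of_lt hi)
    rw [add_comm, pow_add, Module.End.mul_apply, hY, map_zero]
  have hterm : ∀ i j, (s < i ∨ t < j) → (X ^ i * Y ^ j) v = 0 := by
    intro i j h
    rcases h with h | h
    · rw [(hc.pow_pow i j).eq, Module.End.mul_apply, hX' i h, map_zero]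
    · rw [Module.End.mul_apply, hY' j h, map_zero]
  constructor
  · rw [hc.add_pow', LinearMap.sum_apply]
    apply Finset.sum_eq_zero
    rintro ⟨i, j⟩ hij
    have hij : i + j = s + t + 1 := by simpa using hij
    rw [LinearMap.smul_apply, hterm i j (by omega), smul_zero]
  · rw [hc.add_pow', LinearMap.sum_apply, Finset.sum_eq_single ((s, t) : ℕ × ℕ)]
    · rw [LinearMap.smul_apply, Module.End.mul_apply, ← Nat.cast_smul_eq_nsmul K]
      apply smul_ne_zero
      · rw [Nat.cast_ne_zero]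
        exact (Nat.choose_pos (by omega)).ne'
      · exact hne
    · rintro ⟨i, j⟩ hij hne'
      have hij : i + j = s + t := by simpa using hij
      have h1 : i ≠ s := by
        rintro rfl
        apply hne'
        congr 1
        omega
      rw [LinearMap.smul_apply, hterm i j (by omega), smul_zero]
    · intro h
      exfalso
      apply h
      simp

end

section
variable {K : Type*} [Field K]

/-- a Jordan chain of length `s + 1` -/
def chain {κ : Type*} [Fintype κ] [DecidableEq κ] (M : Matrix κ κ K) (μ : K) (s : ℕ) : Prop :=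
  ∃ x : κ → K, ((TT M μ) ^ (s + 1)) x = 0 ∧ ((TT M μ) ^ s) x ≠ 0

/-- the tensor product of two vectors -/
def tn {ι κ : Type*} (x : ι → K) (y : κ → K) : ι × κ → K := fun p => x p.1 * y p.2

theorem kron_tn {ι κ : Type*} [Fintype ι] [DecidableEq ι] [Fintype κ] [DecidableEq κ]
    (A : Matrix ι ι K) (B : Matrix κ κ K) (x : ι → K) (y : κ → K) :
    Matrix.toLin' (A ⊗ₖ B) (tn x y) = tn (Matrix.toLin' A x) (Matrix.toLin' B y) := by
  ext ⟨i, k⟩
  simp only [Matrix.toLin'_apply, Matrix.mulVec, dotProduct, tn, Matrix.kroneckerMap_apply,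
    Fintype.sum_prod_type, Finset.sum_mul_sum]
  refine Finset.sum_congr rfl fun i' _ => Finset.sum_congr rfl fun k' _ => ?_
  ring

theorem kron_pow_tn {ι κ : Type*} [Fintype ι] [DecidableEq ι] [Fintype κ] [DecidableEq κ]
    (A : Matrix ι ι K) (B : Matrix κ κ K) (x : ι → K) (y : κ → K) (k : ℕ) :
    ((Matrix.toLin' (A ⊗ₖ B)) ^ k) (tn x y)
      = tn (((Matrix.toLin' A) ^ k) x) (((Matrix.toLin' B) ^ k) y) := by
  rw [← Matrix.toLin'_pow, kron_pow, kron_tn, Matrix.toLin'_pow, Matrix.toLin'_pow]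

theorem tn_ne {ι κ : Type*} (x : ι → K) (y : κ → K) (hx : x ≠ 0) (hy : y ≠ 0) : tn x y ≠ 0 := by
  obtain ⟨i, hi⟩ := Function.ne_iff.mp hx
  obtain ⟨k, hk⟩ := Function.ne_iff.mp hy
  intro h
  exact mul_ne_zero hi hk (congrFun h (i, k))

theorem tn_zero {ι κ : Type*} (y : κ → K) : tn (0 : ι → K) y = 0 := by
  ext p
  exact zero_mul _

theorem tn_zero' {ι κ : Type*} (x : ι → K) : tn x (0 : κ → K) = 0 := by
  ext p
  exact mul_zero _

theorem TT_eq {κ : Type*} [Fintype κ] [DecidableEq κ] (M : Matrix κ κ K) (μ : K) :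
    TT M μ = Matrix.toLin' (M - μ • (1 : Matrix κ κ K)) := by
  unfold TT
  rw [map_sub, map_smul, Matrix.toLin'_one]
  rfl

theorem chain_kron [CharZero K] {ι κ : Type*} [Fintype ι] [DecidableEq ι] [Fintype κ]
    [DecidableEq κ] (A : Matrix ι ι K) (B : Matrix κ κ K) (μ ν : K) (hμ : μ ≠ 0) (hν : ν ≠ 0)
    (s t : ℕ) (hA : chain A μ s) (hB : chain B ν t) : chain (A ⊗ₖ B) (μ * ν) (s + t) := by
  obtain ⟨x, hx, hx'⟩ := hA
  obtain ⟨y, hy, hy'⟩ := hB
  set A' := A - μ • (1 : Matrix ι ι K) with hA'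
  set B' := B - ν • (1 : Matrix κ κ K) with hB'
  have cB : Commute B B' := by
    rw [hB']
    exact (Commute.refl B).sub_right ((Commute.one_right B).smul_right ν)
  have hsum : TT (A ⊗ₖ B) (μ * ν) = Matrix.toLin' (A' ⊗ₖ B) + Matrix.toLin' ((μ • 1) ⊗ₖ B') := by
    rw [TT_eq, ← map_add]
    congr 1
    have e1 : A ⊗ₖ B = A' ⊗ₖ B + (μ • (1 : Matrix ι ι K)) ⊗ₖ B := by
      rw [← Matrix.add_kronecker, hA', sub_add_cancel]
    have e3 : B = B' + ν • (1 : Matrix κ κ K) := by rw [hB', sub_add_cancel]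
    have e2 : (μ • (1 : Matrix ι ι K)) ⊗ₖ B = (μ • (1 : Matrix ι ι K)) ⊗ₖ B'
        + (μ * ν) • (1 : Matrix (ι × κ) (ι × κ) K) := by
      conv_lhs => rw [e3]
      rw [Matrix.kronecker_add, Matrix.smul_kronecker μ 1 (ν • (1 : Matrix κ κ K)),
        Matrix.kronecker_smul, Matrix.one_kronecker_one, smul_smul]
    rw [e1, e2]
    abel
  have hc : Commute (Matrix.toLin' (A' ⊗ₖ B)) (Matrix.toLin' ((μ • 1 : Matrix ι ι K) ⊗ₖ B')) :=
    toLin_commute (kron_commute ((Commute.one_right A').smul_right μ) cB)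
  have hpow : ∀ (j : ℕ) (z : ι → K), ((Matrix.toLin' (μ • 1 : Matrix ι ι K)) ^ j) z
      = μ ^ j • z := by
    intro j z
    rw [← Matrix.toLin'_pow, smul_pow, one_pow, map_smul, Matrix.toLin'_one]
    rfl
  have hBy : Matrix.toLin' B (((Matrix.toLin' B') ^ t) y) = ν • ((Matrix.toLin' B') ^ t) y := by
    rw [TT_eq, ← hB', pow_succ', Module.End.mul_apply] at hy
    have h2 : Matrix.toLin' B (((Matrix.toLin' B') ^ t) y)
        = Matrix.toLin' B' (((Matrix.toLin' B') ^ t) y) + ν • ((Matrix.toLin' B') ^ t) y := by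
      nth_rewrite 3 [hB']
      rw [map_sub, map_smul, Matrix.toLin'_one, LinearMap.sub_apply, LinearMap.smul_apply,
        LinearMap.id_apply]
      abel
    rw [h2, hy, zero_add]
  have hBpow : ∀ k, ((Matrix.toLin' B) ^ k) (((Matrix.toLin' B') ^ t) y)
      = ν ^ k • ((Matrix.toLin' B') ^ t) y := by
    intro k
    induction k with
    | zero => simp
    | succ k ih => rw [pow_succ', Module.End.mul_apply, ih, map_smul, hBy, smul_smul, pow_succ]
  refine ⟨tn x y, ?_⟩
  rw [hsum]
  apply two_chain _ _ hc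
  · rw [kron_pow_tn, ← TT_eq, hx, tn_zero]
  · rw [kron_pow_tn, ← TT_eq, hy, tn_zero']
  · rw [kron_pow_tn, kron_pow_tn, hpow, hBpow]
    apply tn_ne
    · rw [map_smul, ← TT_eq]
      exact smul_ne_zero (pow_ne_zero _ hμ) hx'
    · apply smul_ne_zero (pow_ne_zero _ hν)
      rw [← TT_eq]
      exact hy'

theorem TT_reindex {ι κ : Type*} [Fintype ι] [DecidableEq ι] [Fintype κ] [DecidableEq κ]
    (e : ι ≃ κ) (A : Matrix ι ι K) (μ : K) (x : ι → K) (k : ℕ) :
    ((TT (Matrix.reindex e e A) μ) ^ k) (x ∘ e.symm) = (((TT A μ) ^ k) x) ∘ e.symm := by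
  induction k with
  | zero => rfl
  | succ k ih =>
    rw [pow_succ', Module.End.mul_apply, ih, pow_succ', Module.End.mul_apply]
    set z := ((TT A μ) ^ k) x
    unfold TT
    ext i
    simp only [LinearMap.sub_apply, LinearMap.smul_apply, Module.End.one_apply,
      Matrix.toLin'_apply, Matrix.mulVec, dotProduct, Pi.sub_apply, Pi.smul_apply,
      Function.comp_apply, Matrix.reindex_apply, Matrix.submatrix_apply]
    congr 1
    exact Equiv.sum_comp e.symm (fun j => A (e.symm i) j * z j)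

theorem chain_reindex {ι κ : Type*} [Fintype ι] [DecidableEq ι] [Fintype κ] [DecidableEq κ]
    (e : ι ≃ κ) (A : Matrix ι ι K) (μ : K) (s : ℕ) (h : chain A μ s) :
    chain (Matrix.reindex e e A) μ s := by
  obtain ⟨x, hx, hx'⟩ := h
  refine ⟨x ∘ e.symm, ?_, ?_⟩
  · rw [TT_reindex, hx]
    rfl
  · rw [TT_reindex]
    intro h
    apply hx'
    ext i
    have h1 := congrFun h (e i)
    simp only [Function.comp_apply, Equiv.symm_apply_apply] at h1
    exact h1

theorem chain_kpow [CharZero K] {b : ℕ} (A : Matrix (Fin b) (Fin b) K) (c : K) (hc : c ≠ 0)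
    (s : ℕ) (h : chain A c s) (n : ℕ) : chain (kpow A n) (c ^ n) (n * s) := by
  induction n with
  | zero =>
    rw [kpow_zero, pow_zero, zero_mul]
    refine ⟨1, ?_, ?_⟩
    · rw [zero_add, pow_one]
      unfold TT
      rw [Matrix.toLin'_one, one_smul]
      simp
    · rw [pow_zero]
      intro h0
      have h1 := congrFun h0 (fun i => i.elim0)
      exact one_ne_zero h1
  | succ n ih =>
    rw [kpow_succ, pow_succ', Nat.succ_mul, add_comm (n * s) s]
    exact chain_reindex _ _ _ _ (chain_kron A _ c _ hc (pow_ne_zero _ hc) s _ h ih)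

theorem blk_reindex {ι κ : Type*} [Fintype ι] [DecidableEq ι] [Fintype κ] [DecidableEq κ]
    (e : ι ≃ κ) (A : Matrix ι ι K) (μ : K) (k : ℕ) :
    blk (Matrix.reindex e e A) μ k = blk A μ k := by
  have h : ∀ a, geo (Matrix.reindex e e A) μ a = geo A μ a := by
    intro a
    rw [geo_ker, geo_ker]
    let ε : (ι → K) ≃ₗ[K] (κ → K) := LinearEquiv.funCongrLeft K K e.symm
    have h1 : (LinearMap.ker ((TT A μ) ^ a)).map (ε : (ι → K) →ₗ[K] (κ → K))
        = LinearMap.ker ((TT (Matrix.reindex e e A) μ) ^ a) := by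
      ext y
      constructor
      · rintro ⟨x, hx, rfl⟩
        rw [LinearMap.mem_ker]
        have hx' : ((TT A μ) ^ a) x = 0 := hx
        have h2 := TT_reindex e A μ x a
        rw [hx'] at h2
        exact h2
      · intro hy
        refine ⟨ε.symm y, ?_, ε.apply_symm_apply y⟩
        have h2 := TT_reindex e A μ (ε.symm y) a
        have h3 : (ε.symm y) ∘ e.symm = y := ε.apply_symm_apply y
        rw [h3, LinearMap.mem_ker.mp hy] at h2
        change ((TT A μ) ^ a) (ε.symm y) = 0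
        ext i
        have h4 := congrFun h2 (e i)
        simp only [Function.comp_apply, Equiv.symm_apply_apply] at h4
        exact h4.symm
    rw [← h1]
    exact (LinearEquiv.finrank_map_eq ε _)
  unfold blk
  rw [h, h, h]

end

end Pool.Agent.GP66
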