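import Pool.Agent.FS77.Defs

/-!
The number of Jordan blocks of a given size.
-/

namespace Pool.Agent.GP66

open Pool.Agent.FS77

/-- The number of Jordan blocks of size exactly `k ≥ 1` of the matrix `M` for the eigenvalue `μ`. -/
noncomputable def blk {K : Type*} [Field K] {κ : Type*} [Fintype κ] [DecidableEq κ]
    (M : Matrix κ κ K) (μ : K) (k : ℕ) : ℕ :=
  2 * geo M μ k - geo M μ (k - 1) - geo M μ (k + 1)

end Pool.Agent.GP66
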