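import Pool.Agent.GP66.DefsB
import Pool.Agent.FS77.Count

/-!
Counting Jordan blocks of a given size.
-/

namespace Pool.Agent.GP66

open Matrix Module LinearMap Pool.Agent.FS77

section
variable {K : Type*} [Field K] {V : Type*} [AddCommGroup V] [Module K V] [FiniteDimensional K V]

theorem finrank_succ (T : Module.End K V) (k : ℕ) :
    finrank K (ker (T ^ (k + 1))) = finrank K (ker (T ^ k))
      + finrank K (ker T ⊓ range (T ^ k) : Submodule K V) := by
  let f : ker (T ^ (k + 1)) →ₗ[K] V := (T ^ k).domRestrict (ker (T ^ (k + 1)))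
  have h1 : range f = ker T ⊓ range (T ^ k) := by
    ext y
    rw [Submodule.mem_inf]
    constructor
    · rintro ⟨⟨x, hx⟩, rfl⟩
      refine ⟨?_, ⟨x, rfl⟩⟩
      rw [LinearMap.mem_ker] at hx ⊢
      rw [pow_succ', Module.End.mul_apply] at hx
      exact hx
    · rintro ⟨hy, ⟨x, rfl⟩⟩
      refine ⟨⟨x, ?_⟩, rfl⟩
      rw [LinearMap.mem_ker] at hy ⊢
      rw [pow_succ', Module.End.mul_apply]
      exact hy
  have h2 : (ker f).map (ker (T ^ (k + 1))).subtype = ker (T ^ k) := by
    ext x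
    constructor
    · rintro ⟨⟨y, hy⟩, hy2, rfl⟩
      exact hy2
    · intro hx
      refine ⟨⟨x, ?_⟩, hx, rfl⟩
      rw [LinearMap.mem_ker] at hx ⊢
      rw [pow_succ', Module.End.mul_apply, hx, map_zero]
  have h3 := LinearMap.finrank_range_add_finrank_ker f
  have h4 : finrank K (ker f) = finrank K (ker (T ^ k)) := by
    rw [← h2]
    exact LinearEquiv.finrank_eq (Submodule.equivMapOfInjective _
      (ker (T ^ (k + 1))).injective_subtype _)
  rw [h1, h4] at h3
  omega

theorem inf_mono (T : Module.End K V) (k : ℕ) :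
    (ker T ⊓ range (T ^ (k + 1)) : Submodule K V) ≤ ker T ⊓ range (T ^ k) := by
  apply inf_le_inf_left
  rintro _ ⟨x, rfl⟩
  exact ⟨T x, by rw [← Module.End.mul_apply, ← pow_succ]⟩

theorem inf_lt (T : Module.End K V) (k : ℕ) (x : V) (ψ : V →ₗ[K] K)
    (hx : (T ^ (k + 1)) x = 0) (hψ : ∀ y, ψ ((T ^ (k + 1)) y) = 0) (hne : ψ ((T ^ k) x) ≠ 0) :
    (ker T ⊓ range (T ^ (k + 1)) : Submodule K V) < ker T ⊓ range (T ^ k) := by
  refine lt_of_le_of_ne (inf_mono T k) ?_
  intro h
  have h1 : (T ^ k) x ∈ (ker T ⊓ range (T ^ k) : Submodule K V) := by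
    refine ⟨?_, ⟨x, rfl⟩⟩
    show T ((T ^ k) x) = 0
    rw [← Module.End.mul_apply, ← pow_succ']
    exact hx
  rw [← h] at h1
  obtain ⟨_, ⟨y, hy⟩⟩ := h1
  apply hne
  rw [← hy]
  exact hψ y

end

section
variable {K : Type*} [Field K] {κ : Type*} [Fintype κ] [DecidableEq κ]

/-- `M - μ` as a linear map -/
noncomputable def TT (M : Matrix κ κ K) (μ : K) : Module.End K (κ → K) :=
  Matrix.toLin' M - μ • (1 : Module.End K (κ → K))

theorem geo_ker (M : Matrix κ κ K) (μ : K) (a : ℕ) :
    geo M μ a = finrank K (ker ((TT M μ) ^ a)) := by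
  unfold geo TT
  rw [Module.End.genEigenspace_nat]

theorem geo_succ (M : Matrix κ κ K) (μ : K) (k : ℕ) :
    geo M μ (k + 1) = geo M μ k
      + finrank K (ker (TT M μ) ⊓ range ((TT M μ) ^ k) : Submodule K (κ → K)) := by
  rw [geo_ker, geo_ker, finrank_succ]

/-- the number of blocks of size `k + 1` -/
theorem blk_eq (M : Matrix κ κ K) (μ : K) (k : ℕ) :
    blk M μ (k + 1) + finrank K (ker (TT M μ) ⊓ range ((TT M μ) ^ (k + 1)) : Submodule K (κ → K))
      = finrank K (ker (TT M μ) ⊓ range ((TT M μ) ^ k) : Submodule K (κ → K)) := by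
  have h1 := geo_succ M μ k
  have h2 := geo_succ M μ (k + 1)
  have h3 := Submodule.finrank_mono (inf_mono (TT M μ) k)
  unfold blk
  rw [Nat.add_sub_cancel]
  omega

theorem blk_ne_zero (M : Matrix κ κ K) (μ : K) (k : ℕ) (x : κ → K) (ψ : (κ → K) →ₗ[K] K)
    (hx : ((TT M μ) ^ (k + 1)) x = 0) (hψ : ∀ y, ψ (((TT M μ) ^ (k + 1)) y) = 0)
    (hne : ψ (((TT M μ) ^ k) x) ≠ 0) : blk M μ (k + 1) ≠ 0 := by
  have h1 := blk_eq M μ k
  have h2 := Submodule.finrank_lt_finrank_of_lt (inf_lt (TT M μ) k x ψ hx hψ hne)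
  omega

/-- no blocks of size above `m` if and only if the index is at most `m` -/
theorem ker_of_blk (M : Matrix κ κ K) (μ : K) (m : ℕ) (h : ∀ k, m < k → blk M μ k = 0) (x : κ → K)
    (t : ℕ) (hx : ((TT M μ) ^ t) x = 0) : ((TT M μ) ^ m) x = 0 := by
  -- the intersections are constant from `m` on and finally zero
  set d : ℕ → ℕ := fun k =>
    finrank K (ker (TT M μ) ⊓ range ((TT M μ) ^ k) : Submodule K (κ → K)) with hd
  have h1 : ∀ k, m ≤ k → d (k + 1) = d k := by
    intro k hk
    have h2 := blk_eq M μ k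
    rw [h (k + 1) (by omega), zero_add] at h2
    exact h2
  have h2 : ∀ k, d (m + k) = d m := by
    intro k
    induction k with
    | zero => rfl
    | succ k ih => rw [← add_assoc, h1 _ (by omega), ih]
  have h3 : d m = 0 := by
    by_contra hne
    have h4 : ∀ k, k ≤ geo M μ (m + k) := by
      intro k
      induction k with
      | zero => exact Nat.zero_le _
      | succ k ih =>
        have h5 := geo_succ M μ (m + k)
        have h6 := h2 k
        have h7 : d (m + k) = finrank K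
          (ker (TT M μ) ⊓ range ((TT M μ) ^ (m + k)) : Submodule K (κ → K)) := rfl
        rw [← add_assoc]
        omega
    have h5 := h4 (Fintype.card κ + 1)
    have h6 : geo M μ (m + (Fintype.card κ + 1)) ≤ Fintype.card κ := by
      rw [geo_ker]
      refine (Submodule.finrank_le _).trans ?_
      rw [Module.finrank_fintype_fun_eq_card]
    omega
  have h4 : ∀ k, geo M μ (m + k) = geo M μ m := by
    intro k
    induction k with
    | zero => rfl
    | succ k ih =>
      have h5 := geo_succ M μ (m + k)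
      have h6 := h2 k
      have h7 : d (m + k) = finrank K
        (ker (TT M μ) ⊓ range ((TT M μ) ^ (m + k)) : Submodule K (κ → K)) := rfl
      rw [← add_assoc]
      omega
  have h5 : ker ((TT M μ) ^ m) = ker ((TT M μ) ^ (m + t)) := by
    apply Submodule.eq_of_le_of_finrank_eq
    · intro y hy
      rw [LinearMap.mem_ker] at hy ⊢
      rw [add_comm, pow_add, Module.End.mul_apply, hy, map_zero]
    · rw [← geo_ker, ← geo_ker, h4]
  have h6 : x ∈ ker ((TT M μ) ^ (m + t)) := by
    rw [LinearMap.mem_ker, pow_add, Module.End.mul_apply, hx, map_zero]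
  rw [← h5] at h6
  exact h6

theorem blk_zero_of_ker (M : Matrix κ κ K) (μ : K) (m : ℕ)
    (h : ∀ x t, ((TT M μ) ^ t) x = 0 → ((TT M μ) ^ m) x = 0) (k : ℕ) (hk : m < k) :
    blk M μ k = 0 := by
  obtain ⟨j, rfl⟩ : ∃ j, k = j + 1 := ⟨k - 1, by omega⟩
  have h1 := blk_eq M μ j
  have h2 : (ker (TT M μ) ⊓ range ((TT M μ) ^ j) : Submodule K (κ → K)) = ⊥ := by
    rw [eq_bot_iff]
    rintro _ ⟨hy, ⟨x, rfl⟩⟩
    have h3 : ((TT M μ) ^ (j + 1)) x = 0 := by
      rw [pow_succ', Module.End.mul_apply]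
      exact hy
    have h4 := h x _ h3
    obtain ⟨i, rfl⟩ : ∃ i, j = i + m := ⟨j - m, by omega⟩
    rw [Submodule.mem_bot, pow_add, Module.End.mul_apply, h4, map_zero]
  rw [h2, finrank_bot] at h1
  omega

end

end Pool.Agent.GP66
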