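import Pool.Agent.GP66.Square

/-!
The block sizes of the Kronecker powers of a similitude.
-/

namespace Pool.Agent.GP66

open Matrix Module Kronecker Pool.Agent.FS77

section
variable {K : Type*} [Field K] {V : Type*} [AddCommGroup V] [Module K V]

theorem exists_fun (T : Module.End K V) (s : ℕ) (x : V) (hx : (T ^ (s + 1)) x = 0)
    (hx' : (T ^ s) x ≠ 0) (hidx : ∀ (y : V) (t : ℕ), (T ^ t) y = 0 → (T ^ (s + 1)) y = 0) :
    ∃ (v : V) (φ : V →ₗ[K] K), (T ^ (s + 1)) v = 0 ∧ (∀ y, φ ((T ^ (s + 1)) y) = 0) ∧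
      φ ((T ^ s) v) = 1 := by
  have h1 : (T ^ s) x ∉ LinearMap.range (T ^ (s + 1)) := by
    rintro ⟨y, hy⟩
    apply hx'
    rw [← hy]
    apply hidx y (s + 2)
    have e : (T ^ (s + 2)) y = T ((T ^ (s + 1)) y) := by
      rw [pow_succ' T (s + 1), Module.End.mul_apply]
    rw [e, hy, ← Module.End.mul_apply, ← pow_succ', hx]
  obtain ⟨f, hf, hf'⟩ := Submodule.exists_dual_map_eq_bot_of_notMem h1 inferInstance
  refine ⟨(f ((T ^ s) x))⁻¹ • x, f, ?_, ?_, ?_⟩
  · rw [map_smul, hx, smul_zero]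
  · intro y
    have h2 : f ((T ^ (s + 1)) y) ∈ (LinearMap.range (T ^ (s + 1))).map f := ⟨_, ⟨y, rfl⟩, rfl⟩
    rw [hf', Submodule.mem_bot] at h2
    exact h2
  · rw [map_smul, map_smul, smul_eq_mul, inv_mul_cancel₀ hf]

theorem adjust (T : Module.End K V) (φ : V →ₗ[K] K) (s : ℕ) (v₀ : V)
    (h0 : (T ^ (s + 1)) v₀ = 0) (h1 : φ ((T ^ s) v₀) = 1) : ∀ r ≤ s, ∃ v, (T ^ (s + 1)) v = 0 ∧
      φ ((T ^ s) v) = 1 ∧ ∀ i, s - r ≤ i → i < s → φ ((T ^ i) v) = 0 := by
  intro r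
  induction r with
  | zero =>
    intro _
    refine ⟨v₀, h0, h1, ?_⟩
    intro i hi hi'
    omega
  | succ r ih =>
    intro hr
    obtain ⟨v, hv, hv1, hv2⟩ := ih (by omega)
    have hbig : ∀ i, s < i → (T ^ i) v = 0 := by
      intro i hi
      obtain ⟨d, rfl⟩ := Nat.exists_eq_add_of_le (Nat.succ_le_of_lt hi)
      rw [Nat.succ_eq_add_one, add_comm, pow_add, Module.End.mul_apply, hv, map_zero]
    obtain ⟨c, hc⟩ : ∃ c, c = φ ((T ^ (s - (r + 1))) v) := ⟨_, rfl⟩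
    have hstep : ∀ i, (T ^ i) (v - c • (T ^ (r + 1)) v) = (T ^ i) v - c • (T ^ (i + (r + 1))) v := by
      intro i
      rw [map_sub, map_smul, pow_add T i (r + 1), Module.End.mul_apply]
    refine ⟨v - c • (T ^ (r + 1)) v, ?_, ?_, ?_⟩
    · rw [hstep, hv, hbig _ (by omega), smul_zero, sub_zero]
    · rw [hstep, hbig (s + (r + 1)) (by omega), smul_zero, sub_zero, hv1]
    · intro i hi hi'
      rw [hstep, map_sub, map_smul, smul_eq_mul]
      by_cases h2 : s - r ≤ i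
      · rw [hv2 i h2 hi', hbig (i + (r + 1)) (by omega), map_zero, mul_zero, sub_zero]
      · have h3 : i = s - (r + 1) := by omega
        have h4 : i + (r + 1) = s := by omega
        rw [h4, hv1, mul_one, h3, hc, sub_self]

end

section
variable {K : Type*} [Field K] {κ : Type*} [Fintype κ] [DecidableEq κ]

theorem exists_mats (M : Matrix κ κ K) (μ : K) (s : ℕ) (hch : chain M μ s)
    (hidx : ∀ (y : κ → K) (t : ℕ), ((TT M μ) ^ t) y = 0 → ((TT M μ) ^ (s + 1)) y = 0) :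
    ∃ (Vm : Matrix κ (Fin (s + 1)) K) (Pm : Matrix (Fin (s + 1)) κ K), Pm * Vm = 1 ∧
      (M - μ • (1 : Matrix κ κ K)) * Vm = Vm * JJ K (s + 1) ∧
      Pm * (M - μ • (1 : Matrix κ κ K)) = JJ K (s + 1) * Pm := by
  obtain ⟨x, hx, hx'⟩ := hch
  obtain ⟨v₀, φ, h0, hφ, h1⟩ := exists_fun (TT M μ) s x hx hx' hidx
  obtain ⟨v, hv, hv1, hv2⟩ := adjust (TT M μ) φ s v₀ h0 h1 s le_rfl
  set n := M - μ • (1 : Matrix κ κ K) with hn
  have hT : ∀ (k : ℕ) (y : κ → K), ((TT M μ) ^ k) y = (n ^ k) *ᵥ y := by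
    intro k y
    rw [TT_eq, ← Matrix.toLin'_pow, Matrix.toLin'_apply]
  set f : κ → K := fun i => φ (Pi.single i 1) with hf
  have hφf : ∀ y : κ → K, φ y = f ⬝ᵥ y := by
    intro y
    conv_lhs => rw [pi_eq_sum_univ' y]
    rw [map_sum, dotProduct]
    refine Finset.sum_congr rfl fun i _ => ?_
    rw [map_smul, smul_eq_mul, mul_comm]
  have hbig : ∀ i, s < i → (n ^ i) *ᵥ v = 0 := by
    intro i hi
    obtain ⟨d, rfl⟩ := Nat.exists_eq_add_of_le (Nat.succ_le_of_lt hi)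
    rw [hT] at hv
    rw [Nat.succ_eq_add_one, add_comm, pow_add, ← Matrix.mulVec_mulVec, hv, Matrix.mulVec_zero]
  have hfz : f ᵥ* (n ^ (s + 1)) = 0 := by
    ext i
    have h2 := hφ (Pi.single i 1)
    rw [hT, hφf, Matrix.dotProduct_mulVec, dotProduct_single, mul_one] at h2
    exact h2
  let Vm : Matrix κ (Fin (s + 1)) K := Matrix.of fun y i => ((n ^ (i : ℕ)) *ᵥ v) y
  let Pm : Matrix (Fin (s + 1)) κ K := Matrix.of fun l y => (f ᵥ* (n ^ (s - (l : ℕ)))) y
  refine ⟨Vm, Pm, ?_, ?_, ?_⟩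
  · ext l i
    have e : (Pm * Vm) l i = φ (((TT M μ) ^ (s - (l : ℕ) + (i : ℕ))) v) := by
      rw [hφf, hT, pow_add, ← Matrix.mulVec_mulVec, Matrix.dotProduct_mulVec]
      rfl
    rw [e]
    have hl := l.2
    have hi := i.2
    by_cases hli : l = i
    · subst hli
      rw [Matrix.one_apply_eq]
      have h3 : s - (l : ℕ) + (l : ℕ) = s := by omega
      rw [h3]
      exact hv1
    · rw [Matrix.one_apply_ne hli]
      have hne : (l : ℕ) ≠ (i : ℕ) := fun h => hli (Fin.ext h)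
      by_cases h3 : (l : ℕ) < (i : ℕ)
      · rw [hT, hbig _ (by omega), map_zero]
      · exact hv2 _ (by omega) (by omega)
  · ext y i
    have e : (n * Vm) y i = ((n ^ ((i : ℕ) + 1)) *ᵥ v) y := by
      rw [pow_succ', ← Matrix.mulVec_mulVec]
      rfl
    rw [e, Matrix.mul_apply]
    simp only [JJ, Matrix.of_apply, mul_ite, mul_one, mul_zero]
    by_cases hi : (i : ℕ) + 1 < s + 1
    · rw [Finset.sum_eq_single (⟨(i : ℕ) + 1, hi⟩ : Fin (s + 1))]
      · rw [if_pos rfl]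
        rfl
      · intro l _ hl
        rw [if_neg]
        intro h
        exact hl (Fin.ext h)
      · intro h
        exact absurd (Finset.mem_univ _) h
    · rw [hbig _ (by omega), Finset.sum_eq_zero]
      · rfl
      · intro l _
        rw [if_neg]
        have := l.2
        omega
  · ext l y
    have e : (Pm * n) l y = (f ᵥ* (n ^ (s - (l : ℕ) + 1))) y := by
      rw [pow_succ, ← Matrix.vecMul_vecMul]
      rfl
    have hl := l.2
    rw [e, Matrix.mul_apply]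
    simp only [JJ, Matrix.of_apply, ite_mul, one_mul, zero_mul]
    by_cases h0 : (l : ℕ) = 0
    · rw [h0, Nat.sub_zero, hfz, Finset.sum_eq_zero]
      · rfl
      · intro i _
        rw [if_neg]
        omega
    · rw [Finset.sum_eq_single (⟨(l : ℕ) - 1, by omega⟩ : Fin (s + 1))]
      · have h3 : (l : ℕ) = ((l : ℕ) - 1) + 1 := by omega
        rw [if_pos h3]
        have h4 : s - (l : ℕ) + 1 = s - ((l : ℕ) - 1) := by omega
        rw [h4]
        rfl
      · intro i _ hi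
        rw [if_neg]
        intro h
        apply hi
        apply Fin.ext
        simp only
        omega
      · intro h
        exact absurd (Finset.mem_univ _) h

theorem chain_of_blk (M : Matrix κ κ K) (μ : K) (s : ℕ) (h : blk M μ (s + 1) ≠ 0) :
    chain M μ s := by
  by_contra hno
  apply h
  have h1 := blk_eq M μ s
  have h2 : (LinearMap.ker (TT M μ) ⊓ LinearMap.range ((TT M μ) ^ s) : Submodule K (κ → K)) = ⊥ := by
    rw [eq_bot_iff]
    rintro _ ⟨hy, ⟨x, rfl⟩⟩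
    rw [Submodule.mem_bot]
    by_contra hne
    apply hno
    refine ⟨x, ?_, hne⟩
    rw [pow_succ', Module.End.mul_apply]
    exact hy
  rw [h2, finrank_bot] at h1
  omega

end

section
universe u
variable {K : Type u} [Field K] [IsAlgClosed K] [CharZero K]

theorem final {b : ℕ} (A P : Matrix (Fin b) (Fin b) K) (Q : K) (hP : P.det ≠ 0) (hQ : Q ≠ 0)
    (h : Aᵀ * P * A = Q • P) (s : ℕ) (hbig : ∀ c k, s + 1 < k → blk A c k = 0)
    (hmax : ∃ c, blk A c (s + 1) ≠ 0) (n : ℕ) :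
    (∀ c k, n * s + 1 < k → blk (kpow A n) c k = 0) ∧
    ∀ j ≤ n * s, blk (kpow A (2 * n)) (Q ^ n) (2 * j + 1) ≠ 0 := by
  have hA : A.det ≠ 0 := by
    have h1 := congrArg Matrix.det h
    rw [Matrix.det_mul, Matrix.det_mul, Matrix.det_smul] at h1
    intro h0
    rw [h0, mul_zero] at h1
    exact mul_ne_zero (pow_ne_zero _ hQ) hP h1.symm
  have hjc : JC A (s + 1) := jc_of_idx A (s + 1) fun μ x t hx =>
    ker_of_blk A μ (s + 1) (hbig μ) x t hx
  have hjn := hjc.kpow n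
  have hidx : ∀ (μ : K) (y : (Fin n → Fin b) → K) (t : ℕ),
      ((TT (kpow A n) μ) ^ t) y = 0 → ((TT (kpow A n) μ) ^ (n * s + 1)) y = 0 :=
    fun μ y t hy => idx_of_jc _ _ hjn μ y t hy
  obtain ⟨c, hc⟩ := hmax
  have hch := chain_of_blk A c s hc
  have hc0 : c ≠ 0 := by
    rintro rfl
    obtain ⟨x, hx, hx'⟩ := hch
    apply hx'
    have h1 : (A ^ (s + 1)) *ᵥ x = 0 := by
      rw [TT_eq, zero_smul, sub_zero, ← Matrix.toLin'_pow, Matrix.toLin'_apply] at hx
      exact hx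
    have h2 : x = 0 := Matrix.eq_zero_of_mulVec_eq_zero (by
      rw [Matrix.det_pow]
      exact pow_ne_zero _ hA) h1
    rw [h2, map_zero]
  refine ⟨fun μ k hk => blk_zero_of_ker _ μ (n * s + 1) (hidx μ) k hk, ?_⟩
  intro j hj
  obtain ⟨Vm, Pm, h1, h2, h3⟩ := exists_mats (kpow A n) (c ^ n) (n * s)
    (chain_kpow A c hc0 s hch n) (hidx (c ^ n))
  have hrel : (kpow A n)ᵀ * kpow P n * kpow A n = Q ^ n • kpow P n := by
    rw [← kpow_transpose, ← kpow_mul, ← kpow_mul, h, kpow_smul]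
  have h4 := sq_blk (kpow A n) (kpow P n) _ (Q ^ n) (c ^ n) (kpow_det A hA n) (kpow_det P hP n)
    (pow_ne_zero _ hQ) hrel (n * s) Vm Pm rfl h1 h2 h3 j (by omega)
  rw [two_mul, kpow_add, blk_reindex]
  exact h4

theorem semisimple_iff {b : ℕ} (A : Matrix (Fin b) (Fin b) K) (s : ℕ)
    (hbig : ∀ c k, s + 1 < k → blk A c k = 0) (hmax : ∃ c, blk A c (s + 1) ≠ 0) :
    Module.End.IsSemisimple (Matrix.toLin' A) ↔ s = 0 := by
  constructor
  · intro hss
    obtain ⟨c, hc⟩ := hmax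
    obtain ⟨x, hx, hx'⟩ := chain_of_blk A c s hc
    by_contra hs
    obtain ⟨r, rfl⟩ := Nat.exists_eq_succ_of_ne_zero hs
    apply hx'
    have h1 : JC A 1 := ⟨A, 0, by rw [add_zero], Commute.zero_right A, hss, by rw [pow_one]⟩
    have h2 := idx_of_jc A 1 h1 c x _ hx
    rw [pow_one] at h2
    rw [pow_succ, Module.End.mul_apply, h2, map_zero]
  · rintro rfl
    obtain ⟨S, R, hsum, _, hss, hR⟩ := jc_of_idx A 1 fun μ x t hx =>
      ker_of_blk A μ 1 (hbig μ) x t hx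
    rw [pow_one] at hR
    rw [hsum, hR, add_zero]
    exact hss

theorem blk_large {κ : Type*} [Fintype κ] [DecidableEq κ] (M : Matrix κ κ K) (μ : K) (k : ℕ)
    (hk : Fintype.card κ < k) : blk M μ k = 0 := by
  apply blk_zero_of_ker M μ (Fintype.card κ) _ k hk
  intro x t hx
  have h1 : x ∈ LinearMap.ker ((TT M μ) ^ t) := hx
  have h2 := Module.End.ker_pow_le_ker_pow_finrank (f := TT M μ) (m := t) h1
  rw [Module.finrank_fintype_fun_eq_card] at h2
  exact h2

theorem exists_max {b : ℕ} (A : Matrix (Fin b) (Fin b) K)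
    (hss : ¬ Module.End.IsSemisimple (Matrix.toLin' A)) :
    ∃ s, 1 ≤ s ∧ (∀ c k, s + 1 < k → blk A c k = 0) ∧ ∃ c, blk A c (s + 1) ≠ 0 := by
  classical
  have hex : ∃ s, ∀ c k, s < k → blk A c k = 0 :=
    ⟨Fintype.card (Fin b), fun c k hk => blk_large A c k hk⟩
  have h1 := Nat.find_spec hex
  have h2 : ∀ r, r < Nat.find hex → ¬ ∀ c k, r < k → blk A c k = 0 := fun r hr =>
    Nat.find_min hex hr
  set s₀ := Nat.find hex
  have h3 : 2 ≤ s₀ := by
    by_contra hlt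
    apply hss
    have h4 : ∀ c k, 1 < k → blk A c k = 0 := fun c k hk => h1 c k (by omega)
    obtain ⟨S, R, hsum, _, hS, hR⟩ := jc_of_idx A 1 fun μ x t hx =>
      ker_of_blk A μ 1 (h4 μ) x t hx
    rw [pow_one] at hR
    rw [hsum, hR, add_zero]
    exact hS
  obtain ⟨s, hs⟩ : ∃ s, s₀ = s + 1 := ⟨s₀ - 1, by omega⟩
  refine ⟨s, by omega, fun c k hk => h1 c k (by omega), ?_⟩
  have h5 := h2 s (by omega)
  push Not at h5
  obtain ⟨c, k, hk, hne⟩ := h5
  have h6 : k = s + 1 := by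
    by_contra h7
    exact hne (h1 c k (by omega))
  exact ⟨c, h6 ▸ hne⟩

theorem crit {b : ℕ} (A P : Matrix (Fin b) (Fin b) K) (Q : K) (hP : P.det ≠ 0) (hQ : Q ≠ 0)
    (h : Aᵀ * P * A = Q • P) : Module.End.IsSemisimple (Matrix.toLin' A) ↔
      ∃ n j : ℕ, 1 ≤ j ∧ j ≤ n ∧ blk (kpow A (2 * n)) (Q ^ n) (2 * j + 1) = 0 := by
  constructor
  · intro hss
    refine ⟨1, 1, le_rfl, le_rfl, ?_⟩
    have h1 := ss_kpow A hss (2 * 1)
    have h2 : JC (kpow A (2 * 1)) 1 :=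
      ⟨_, 0, by rw [add_zero], Commute.zero_right _, h1, by rw [pow_one]⟩
    exact blk_zero_of_ker _ _ 1 (fun x t hx => idx_of_jc _ 1 h2 _ x t hx) _ (by omega)
  · rintro ⟨n, j, hj, hjn, h0⟩
    by_contra hss
    obtain ⟨s, hs, hbig, hmax⟩ := exists_max A hss
    refine (final A P Q hP hQ h s hbig hmax n).2 j ?_ h0
    calc j ≤ n := hjn
      _ = n * 1 := (mul_one n).symm
      _ ≤ n * s := Nat.mul_le_mul_left n hs

end

end Pool.Agent.GP66
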