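import Pool.Agent.GP66.Exact
import Pool.Agent.FS77.Semi

/-!
The Jordan decomposition and the largest block size of Kronecker products.
-/

namespace Pool.Agent.GP66

open Matrix Module Kronecker Pool.Agent.FS77

section
variable {K : Type*} [Field K] {V : Type*} [AddCommGroup V] [Module K V]

theorem gen_sub (A n : Module.End K V) (hc : Commute A n) (hn : IsNilpotent n) (x : V)
    (hx : ∃ k : ℕ, (A ^ k) x = 0) : ∃ k : ℕ, ((A - n) ^ k) x = 0 := by
  obtain ⟨k, hk⟩ := hx
  obtain ⟨l, hl⟩ := hn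
  refine ⟨k + l, ?_⟩
  have hc' : Commute A (-n) := hc.neg_right
  rw [sub_eq_add_neg, hc'.add_pow', LinearMap.sum_apply]
  apply Finset.sum_eq_zero
  rintro ⟨i, j⟩ hij
  have hij : i + j = k + l := by simpa using hij
  rw [LinearMap.smul_apply]
  by_cases hj : l ≤ j
  · obtain ⟨d, rfl⟩ := Nat.exists_eq_add_of_le hj
    have h1 : (-n) ^ (l + d) = 0 := by
      rw [pow_add, neg_pow, hl, mul_zero, zero_mul]
    rw [h1, mul_zero, LinearMap.zero_apply, smul_zero]
  · have hi : k ≤ i := by omega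
    obtain ⟨d, rfl⟩ := Nat.exists_eq_add_of_le hi
    have h2 : Commute (A ^ (k + d)) ((-n) ^ j) := hc'.pow_pow _ _
    rw [h2.eq, Module.End.mul_apply, add_comm k d, pow_add, Module.End.mul_apply, hk, map_zero,
      map_zero, smul_zero]

theorem smul_one_commute (a : K) (n : Module.End K V) :
    Commute (a • (1 : Module.End K V)) n := by
  rw [Commute, SemiconjBy]
  ext y
  simp

theorem ss_eigen [FiniteDimensional K V] (f Ψ n : Module.End K V) (hsum : f = Ψ + n)
    (hc : Commute Ψ n) (hss : Ψ.IsSemisimple) (hn : IsNilpotent n) (a : K) (x : V)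
    (hx : ∃ t : ℕ, ((f - a • (1 : Module.End K V)) ^ t) x = 0) : Ψ x = a • x := by
  have h1 : x ∈ Ψ.maxGenEigenspace a := by
    rw [Module.End.mem_maxGenEigenspace]
    have h2 : Ψ - a • (1 : Module.End K V) = (f - a • (1 : Module.End K V)) - n := by
      rw [hsum]
      abel
    rw [h2]
    apply gen_sub _ _ _ hn x hx
    rw [hsum]
    exact (hc.add_left (Commute.refl n)).sub_left (smul_one_commute a n)
  rw [hss.isFinitelySemisimple.maxGenEigenspace_eq_eigenspace,
    Module.End.mem_eigenspace_iff] at h1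
  exact h1

theorem pow_eq_nil [FiniteDimensional K V] (f Ψ n : Module.End K V) (hsum : f = Ψ + n)
    (hc : Commute Ψ n) (hss : Ψ.IsSemisimple) (hn : IsNilpotent n) (a : K) (x : V)
    (hx : ∃ t : ℕ, ((f - a • (1 : Module.End K V)) ^ t) x = 0) (k : ℕ) :
    ((f - a • (1 : Module.End K V)) ^ k) x = (n ^ k) x := by
  have h1 := ss_eigen f Ψ n hsum hc hss hn a x hx
  induction k with
  | zero => rfl
  | succ k ih =>
    rw [pow_succ', Module.End.mul_apply, ih, pow_succ', Module.End.mul_apply, hsum]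
    have h2 : Ψ ((n ^ k) x) = a • (n ^ k) x := by
      have h3 : (Ψ * n ^ k) x = (n ^ k * Ψ) x := by rw [(hc.pow_right k).eq]
      rw [Module.End.mul_apply, Module.End.mul_apply, h1, map_smul] at h3
      exact h3
    rw [LinearMap.sub_apply, LinearMap.add_apply, h2, LinearMap.smul_apply, Module.End.one_apply]
    abel

end

section
variable {K : Type*} [Field K]

theorem toLin_commute {κ : Type*} [Fintype κ] [DecidableEq κ] {S R : Matrix κ κ K}
    (hc : Commute S R) : Commute (Matrix.toLin' S) (Matrix.toLin' R) := by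
  change Matrix.toLin' S * Matrix.toLin' R = Matrix.toLin' R * Matrix.toLin' S
  rw [Module.End.mul_eq_comp, Module.End.mul_eq_comp, ← Matrix.toLin'_mul,
    ← Matrix.toLin'_mul, hc.eq]

/-- a Jordan decomposition with nilpotency index at most `s` -/
def JC {κ : Type*} [Fintype κ] [DecidableEq κ] (M : Matrix κ κ K) (s : ℕ) : Prop :=
  ∃ S R : Matrix κ κ K, M = S + R ∧ Commute S R ∧
    Module.End.IsSemisimple (Matrix.toLin' S) ∧ R ^ s = 0

theorem idx_of_jc {κ : Type*} [Fintype κ] [DecidableEq κ] (M : Matrix κ κ K) (s : ℕ)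
    (h : JC M s) (μ : K) (x : κ → K) (t : ℕ) (hx : ((TT M μ) ^ t) x = 0) :
    ((TT M μ) ^ s) x = 0 := by
  obtain ⟨S, R, hsum, hc, hss, hR⟩ := h
  have hRs : (Matrix.toLin' R) ^ s = 0 := by
    rw [← Matrix.toLin'_pow, hR, map_zero]
  have hc' : Commute (Matrix.toLin' S) (Matrix.toLin' R) := toLin_commute hc
  have h1 := pow_eq_nil (Matrix.toLin' M) (Matrix.toLin' S) (Matrix.toLin' R)
    (by rw [hsum, map_add]) hc' hss ⟨s, hRs⟩ μ x ⟨t, hx⟩ s
  unfold TT
  rw [h1, hRs, LinearMap.zero_apply]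

theorem jc_of_idx [IsAlgClosed K] {κ : Type*} [Fintype κ] [DecidableEq κ] (M : Matrix κ κ K)
    (s : ℕ) (h : ∀ (μ : K) (x : κ → K) (t : ℕ), ((TT M μ) ^ t) x = 0 → ((TT M μ) ^ s) x = 0)
    [PerfectField K] : JC M s := by
  obtain ⟨n, hn, Ψ, hΨ, hnn, hss, hsum⟩ :=
    Module.End.exists_isNilpotent_isSemisimple (K := K) (f := Matrix.toLin' M)
  have c1 : Commute (Matrix.toLin' M) Ψ := Algebra.commute_of_mem_adjoin_self hΨ
  have hc : Commute Ψ n := by
    have h1 : n = Matrix.toLin' M - Ψ := by rw [hsum, add_sub_cancel_right]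
    rw [h1]
    exact (c1.symm).sub_right (Commute.refl Ψ)
  have hns : n ^ s = 0 := by
    have h3 : (⊤ : Submodule K (κ → K)) ≤ LinearMap.ker (n ^ s) := by
      rw [← Module.End.iSup_maxGenEigenspace_eq_top (Matrix.toLin' M)]
      apply iSup_le
      intro a x hx
      rw [Module.End.mem_maxGenEigenspace] at hx
      rw [LinearMap.mem_ker, ← pow_eq_nil (Matrix.toLin' M) Ψ n (by rw [hsum, add_comm]) hc hss hnn
        a x hx s]
      obtain ⟨t, ht⟩ := hx
      exact h a x t ht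
    exact LinearMap.ext fun x => h3 (Submodule.mem_top (x := x))
  refine ⟨LinearMap.toMatrix' Ψ, LinearMap.toMatrix' n, ?_, ?_, ?_, ?_⟩
  · rw [← map_add, add_comm, ← hsum, LinearMap.toMatrix'_toLin']
  · change LinearMap.toMatrix' Ψ * LinearMap.toMatrix' n
      = LinearMap.toMatrix' n * LinearMap.toMatrix' Ψ
    rw [← LinearMap.toMatrix'_mul, ← LinearMap.toMatrix'_mul, hc.eq]
  · rw [Matrix.toLin'_toMatrix']
    exact hss
  · have h4 : ∀ k, LinearMap.toMatrix' (n ^ k) = (LinearMap.toMatrix' n) ^ k := by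
      intro k
      induction k with
      | zero => rw [pow_zero, pow_zero, LinearMap.toMatrix'_one]
      | succ k ih => rw [pow_succ, pow_succ, LinearMap.toMatrix'_mul, ih]
    rw [← h4, hns, map_zero]

theorem kron_pow {ι κ : Type*} [Fintype ι] [DecidableEq ι] [Fintype κ] [DecidableEq κ]
    (A : Matrix ι ι K) (B : Matrix κ κ K) (k : ℕ) : (A ⊗ₖ B) ^ k = (A ^ k) ⊗ₖ (B ^ k) := by
  induction k with
  | zero => rw [pow_zero, pow_zero, pow_zero, Matrix.one_kronecker_one]
  | succ k ih => rw [pow_succ, ih, ← Matrix.mul_kronecker_mul, ← pow_succ, ← pow_succ]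

theorem kron_commute {ι κ : Type*} [Fintype ι] [DecidableEq ι] [Fintype κ] [DecidableEq κ]
    {A A' : Matrix ι ι K} {B B' : Matrix κ κ K} (h : Commute A A') (h' : Commute B B') :
    Commute (A ⊗ₖ B) (A' ⊗ₖ B') := by
  change (A ⊗ₖ B) * (A' ⊗ₖ B') = (A' ⊗ₖ B') * (A ⊗ₖ B)
  rw [← Matrix.mul_kronecker_mul, ← Matrix.mul_kronecker_mul, h.eq, h'.eq]

theorem JC.kron [PerfectField K] {ι κ : Type*} [Fintype ι] [DecidableEq ι] [Fintype κ]
    [DecidableEq κ] {A : Matrix ι ι K} {B : Matrix κ κ K} {s t u : ℕ} (hA : JC A s) (hB : JC B t)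
    (hu : s + t ≤ u + 1) : JC (A ⊗ₖ B) u := by
  obtain ⟨S, R, hsum, hc, hss, hR⟩ := hA
  obtain ⟨S', R', hsum', hc', hss', hR'⟩ := hB
  have cB : Commute S' B := by
    rw [hsum']
    exact (Commute.refl S').add_right hc'
  have cB' : Commute B R' := by
    rw [hsum']
    exact hc'.add_left (Commute.refl R')
  refine ⟨S ⊗ₖ S', R ⊗ₖ B + S ⊗ₖ R', ?_, ?_, ss_kron S S' hss hss', ?_⟩
  · have e : S ⊗ₖ B = S ⊗ₖ S' + S ⊗ₖ R' := by
      rw [← Matrix.kronecker_add, ← hsum']
    rw [hsum, Matrix.add_kronecker, e]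
    abel
  · exact (kron_commute hc cB).add_right (kron_commute (Commute.refl S) hc')
  · have e1 : (R ⊗ₖ B) ^ s = 0 := by rw [kron_pow, hR, Matrix.zero_kronecker]
    have e2 : (S ⊗ₖ R') ^ t = 0 := by rw [kron_pow, hR', Matrix.kronecker_zero]
    exact Commute.add_pow_eq_zero_of_add_le_succ_of_pow_eq_zero
      (kron_commute hc.symm cB') e1 e2 hu

theorem JC.reindex [PerfectField K] {ι κ : Type*} [Fintype ι] [DecidableEq ι] [Fintype κ]
    [DecidableEq κ] (e : ι ≃ κ) {A : Matrix ι ι K} {s : ℕ} (hA : JC A s) :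
    JC (Matrix.reindex e e A) s := by
  obtain ⟨S, R, hsum, hc, hss, hR⟩ := hA
  let φ : Matrix ι ι K →ₐ[K] Matrix κ κ K := (Matrix.reindexAlgEquiv K K e).toAlgHom
  refine ⟨φ S, φ R, ?_, hc.map φ, ss_hom φ S hss, ?_⟩
  · rw [← map_add, ← hsum]
    rfl
  · rw [← map_pow, hR, map_zero]

theorem JC.kpow [PerfectField K] {b : ℕ} {A : Matrix (Fin b) (Fin b) K} {s : ℕ}
    (hA : JC A (s + 1)) (N : ℕ) : JC (kpow A N) (N * s + 1) := by
  induction N with
  | zero =>
    rw [kpow_zero]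
    refine ⟨1, 0, by rw [add_zero], Commute.one_left 0, ?_, ?_⟩
    · rw [Matrix.toLin'_one]
      exact Module.End.isSemisimple_id
    · rw [zero_mul, zero_add, pow_one]
  | succ N ih =>
    rw [kpow_succ]
    apply JC.reindex
    apply hA.kron ih
    rw [Nat.succ_mul]
    omega

end

end Pool.Agent.GP66
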