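import Mathlib

/-!
The standard `sl₂` triple in matrices: `ad_J ^ (2 j)` of `E ^ j` pairs nontrivially with `E ^ j`.
-/

namespace Pool.Agent.GP66

open Matrix LieModule

attribute [local instance 100] LieRing.ofAssociativeRing LieAlgebra.ofAssociativeAlgebra

section
variable (K : Type*) [Field K]

/-- the nilpotent matrix `e_i ↦ e_{i+1}` -/
def JJ (a : ℕ) : Matrix (Fin a) (Fin a) K :=
  Matrix.of fun i l => if (i : ℕ) = (l : ℕ) + 1 then 1 else 0

/-- the raising matrix -/
def EE (a : ℕ) : Matrix (Fin a) (Fin a) K :=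
  Matrix.of fun i l => if (l : ℕ) = (i : ℕ) + 1 then ((l : ℕ) : K) * ((a : K) - (l : ℕ)) else 0

/-- the weights -/
def HH (a : ℕ) : Matrix (Fin a) (Fin a) K :=
  Matrix.diagonal fun i => (a : K) - 1 - 2 * ((i : ℕ) : K)

theorem EE_mul_JJ (a : ℕ) : EE K a * JJ K a
    = Matrix.diagonal fun i : Fin a => (((i : ℕ) : K) + 1) * ((a : K) - 1 - (i : ℕ)) := by
  ext i k
  rw [Matrix.mul_apply]
  simp only [EE, JJ, Matrix.of_apply]
  by_cases hi : (i : ℕ) + 1 < a
  · rw [Finset.sum_eq_single (⟨(i : ℕ) + 1, hi⟩ : Fin a)]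
    · by_cases hik : i = k
      · subst hik
        simp only [if_true, Matrix.diagonal_apply_eq]
        push_cast
        ring
      · rw [Matrix.diagonal_apply_ne _ hik, if_pos rfl, if_neg, mul_zero]
        intro h
        apply hik
        apply Fin.ext
        simp only at h
        omega
    · intro l _ hl
      rw [if_neg, zero_mul]
      intro h
      apply hl
      apply Fin.ext
      exact h
    · intro h
      exact absurd (Finset.mem_univ _) h
  · rw [Finset.sum_eq_zero]
    · by_cases hik : i = k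
      · subst hik
        rw [Matrix.diagonal_apply_eq]
        have h1 : (a : K) = ((i : ℕ) : K) + 1 := by
          have h2 : a = (i : ℕ) + 1 := by
            have := i.2
            omega
          rw [← Nat.cast_add_one, ← h2]
        rw [h1]
        ring
      · rw [Matrix.diagonal_apply_ne _ hik]
    · intro l _
      rw [if_neg, zero_mul]
      have := l.2
      omega

theorem JJ_mul_EE (a : ℕ) : JJ K a * EE K a
    = Matrix.diagonal fun i : Fin a => ((i : ℕ) : K) * ((a : K) - (i : ℕ)) := by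
  ext i k
  rw [Matrix.mul_apply]
  simp only [EE, JJ, Matrix.of_apply, ite_mul, zero_mul, one_mul]
  by_cases hi : 0 < (i : ℕ)
  · rw [Finset.sum_eq_single (⟨(i : ℕ) - 1, by have := i.2; omega⟩ : Fin a)]
    · by_cases hik : i = k
      · subst hik
        have h1 : (i : ℕ) = ((i : ℕ) - 1) + 1 := by omega
        simp only [Matrix.diagonal_apply_eq]
        rw [if_pos h1, if_pos h1]
      · rw [Matrix.diagonal_apply_ne _ hik]
        simp only
        have h1 : (i : ℕ) = ((i : ℕ) - 1) + 1 := by omega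
        rw [if_pos h1, if_neg]
        intro h
        apply hik
        apply Fin.ext
        omega
    · intro l _ hl
      rw [if_neg]
      intro h
      apply hl
      apply Fin.ext
      simp only
      omega
    · intro h
      exact absurd (Finset.mem_univ _) h
  · rw [Finset.sum_eq_zero]
    · by_cases hik : i = k
      · subst hik
        rw [Matrix.diagonal_apply_eq]
        have h2 : (i : ℕ) = 0 := by omega
        rw [h2]
        simp
      · rw [Matrix.diagonal_apply_ne _ hik]
    · intro l _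
      rw [if_neg]
      omega

theorem lie_EJ (a : ℕ) : ⁅EE K a, JJ K a⁆ = HH K a := by
  rw [Ring.lie_def, EE_mul_JJ, JJ_mul_EE, Matrix.diagonal_sub, HH]
  congr 1
  funext i
  ring

theorem lie_HE (a : ℕ) : ⁅HH K a, EE K a⁆ = 2 • EE K a := by
  rw [Ring.lie_def, HH]
  ext i l
  rw [Matrix.sub_apply, Matrix.diagonal_mul, Matrix.mul_diagonal, Matrix.smul_apply]
  simp only [EE, Matrix.of_apply]
  split_ifs with h
  · rw [nsmul_eq_mul, h]
    push_cast
    ring
  · simp

theorem lie_HJ (a : ℕ) : ⁅HH K a, JJ K a⁆ = -(2 • JJ K a) := by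
  rw [Ring.lie_def, HH]
  ext i l
  rw [Matrix.sub_apply, Matrix.diagonal_mul, Matrix.mul_diagonal, Matrix.neg_apply,
    Matrix.smul_apply]
  simp only [JJ, Matrix.of_apply]
  split_ifs with h
  · rw [nsmul_eq_mul, h]
    push_cast
    ring
  · simp

end

section
variable {K : Type*} [Field K] [CharZero K]

theorem HH_ne (a : ℕ) (ha : 2 ≤ a) : HH K a ≠ 0 := by
  intro h
  have h1 := congrFun (congrFun h ⟨0, by omega⟩) ⟨0, by omega⟩
  rw [HH, Matrix.diagonal_apply_eq, Matrix.zero_apply] at h1
  simp only [Nat.cast_zero, mul_zero, sub_zero] at h1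
  have h2 : (a : K) = ((1 : ℕ) : K) := by
    rw [Nat.cast_one]
    exact sub_eq_zero.mp h1
  have h3 := Nat.cast_injective h2
  omega

theorem triple (a : ℕ) (ha : 2 ≤ a) : IsSl2Triple (HH K a) (EE K a) (JJ K a) where
  h_ne_zero := HH_ne a ha
  lie_e_f := lie_EJ K a
  lie_h_e_nsmul := lie_HE K a
  lie_h_f_nsmul := lie_HJ K a

theorem EE_pow_ne (a : ℕ) : ∀ j (hj : j < a), ((EE K a) ^ j) ⟨0, by omega⟩ ⟨j, hj⟩ ≠ 0 := by
  intro j
  induction j with
  | zero =>
    intro hj
    simp
  | succ j ih =>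
    intro hj
    rw [pow_succ, Matrix.mul_apply, Finset.sum_eq_single (⟨j, by omega⟩ : Fin a)]
    · apply mul_ne_zero (ih (by omega))
      simp only [EE, Matrix.of_apply, if_true]
      apply mul_ne_zero
      · exact_mod_cast Nat.succ_ne_zero j
      · rw [sub_ne_zero]
        intro h
        have := Nat.cast_injective h
        omega
    · intro l _ hl
      simp only [EE, Matrix.of_apply]
      rw [if_neg, mul_zero]
      intro h
      apply hl
      apply Fin.ext
      simp only
      omega
    · intro h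
      exact absurd (Finset.mem_univ _) h

theorem lie_HE_pow (a j : ℕ) : ⁅HH K a, (EE K a) ^ j⁆ = (((2 * j : ℕ)) : K) • (EE K a) ^ j := by
  induction j with
  | zero => simp [Ring.lie_def]
  | succ j ih =>
    have h1 : ⁅HH K a, (EE K a) ^ (j + 1)⁆
        = ⁅HH K a, (EE K a) ^ j⁆ * EE K a + (EE K a) ^ j * ⁅HH K a, EE K a⁆ := by
      rw [Ring.lie_def, Ring.lie_def, Ring.lie_def, pow_succ]
      noncomm_ring
    rw [h1, ih, lie_HE, Matrix.smul_mul, Matrix.mul_smul, ← pow_succ, ← Nat.cast_smul_eq_nsmul K,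
      ← add_smul]
    congr 1
    push_cast
    ring

theorem prim (a j : ℕ) (ha : 2 ≤ a) (hj : j < a) :
    IsSl2Triple.HasPrimitiveVectorWith (triple (K := K) a ha) ((EE K a) ^ j)
      (((2 * j : ℕ)) : K) where
  ne_zero := by
    intro h
    have h1 := EE_pow_ne (K := K) a j hj
    rw [h] at h1
    exact h1 rfl
  lie_h := lie_HE_pow a j
  lie_e := by
    rw [Ring.lie_def, ← pow_succ', ← pow_succ, sub_self]

end

/-- the operator `Y ↦ n Y - Y n` -/
def adm {K : Type*} [Field K] {ι : Type*} [Fintype ι] [DecidableEq ι] (n : Matrix ι ι K) :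
    Module.End K (Matrix ι ι K) :=
  LinearMap.mulLeft K n - LinearMap.mulRight K n

section
variable {K : Type*} [Field K] {ι : Type*} [Fintype ι] [DecidableEq ι]

theorem adm_apply (n Y : Matrix ι ι K) : adm n Y = n * Y - Y * n := rfl

theorem trace_adm (n X Y : Matrix ι ι K) : (X * adm n Y).trace = -(adm n X * Y).trace := by
  rw [adm_apply, adm_apply, Matrix.mul_sub, Matrix.sub_mul, Matrix.trace_sub, Matrix.trace_sub,
    ← Matrix.mul_assoc, ← Matrix.mul_assoc, Matrix.trace_mul_comm (X * Y) n, ← Matrix.mul_assoc,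
    neg_sub]

theorem trace_adm_pow (n : Matrix ι ι K) (j : ℕ) : ∀ X Y : Matrix ι ι K,
    (X * (adm n ^ j) Y).trace = (-1) ^ j * ((adm n ^ j) X * Y).trace := by
  induction j with
  | zero => intro X Y; simp
  | succ j ih =>
    intro X Y
    rw [pow_succ, Module.End.mul_apply, ih, trace_adm, pow_succ (-1 : K), mul_neg_one,
      ← pow_succ, pow_succ' (adm n), Module.End.mul_apply]
    ring

theorem adm_eq_toEnd (n : Matrix ι ι K) :
    adm n = toEnd K (Matrix ι ι K) (Matrix ι ι K) n := by
  ext Y : 1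
  rfl

end

theorem adm_zero {K : Type*} [Field K] [CharZero K] (a j : ℕ) (hj : j < a) :
    (adm (JJ K a) ^ (2 * j + 1)) ((EE K a) ^ j) = 0 := by
  rcases Nat.lt_or_ge a 2 with ha | ha
  · obtain rfl : j = 0 := by omega
    rw [pow_zero, mul_zero, zero_add, pow_one, adm_apply, Matrix.mul_one, Matrix.one_mul, sub_self]
  · rw [adm_eq_toEnd]
    exact (prim (K := K) a j ha hj).pow_toEnd_f_eq_zero_of_eq_nat rfl

theorem trace_rat (a j : ℕ) (hj : j < a) :
    ((EE ℚ a) ^ j * (adm (JJ ℚ a) ^ (2 * j)) ((EE ℚ a) ^ j)).trace ≠ 0 := by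
  rcases Nat.lt_or_ge a 2 with ha | ha
  · obtain rfl : j = 0 := by omega
    obtain rfl : a = 1 := by omega
    simp
  · set D := (adm (JJ ℚ a) ^ j) ((EE ℚ a) ^ j) with hD
    have h1 : ((EE ℚ a) ^ j * (adm (JJ ℚ a) ^ (2 * j)) ((EE ℚ a) ^ j)).trace
        = (-1) ^ j * (D * D).trace := by
      rw [two_mul, pow_add, Module.End.mul_apply, trace_adm_pow]
    have hne : D ≠ 0 := by
      rw [hD, adm_eq_toEnd]
      exact (prim (K := ℚ) a j ha hj).pow_toEnd_f_ne_zero_of_eq_nat rfl (by omega)
    have hH : ⁅HH ℚ a, D⁆ = 0 := by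
      have h2 := (prim (K := ℚ) a j ha hj).lie_h_pow_toEnd_f j
      rw [hD, adm_eq_toEnd, h2]
      push_cast
      rw [sub_self, zero_smul]
    have hdiag : ∀ i l, i ≠ l → D i l = 0 := by
      intro i l hil
      have h3 := congrFun (congrFun hH i) l
      rw [Ring.lie_def, HH, Matrix.sub_apply, Matrix.diagonal_mul, Matrix.mul_diagonal,
        Matrix.zero_apply] at h3
      have h4 : (2 * ((l : ℕ) : ℚ) - 2 * ((i : ℕ) : ℚ)) * D i l = 0 := by
        linear_combination h3
      rcases mul_eq_zero.mp h4 with h5 | h5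
      · exfalso
        apply hil
        apply Fin.ext
        have h6 : ((l : ℕ) : ℚ) = ((i : ℕ) : ℚ) := by linarith
        exact (Nat.cast_injective h6).symm
      · exact h5
    have htr : (D * D).trace = ∑ i, D i i ^ 2 := by
      rw [Matrix.trace]
      refine Finset.sum_congr rfl fun i _ => ?_
      rw [Matrix.diag_apply, Matrix.mul_apply, Finset.sum_eq_single i]
      · ring
      · intro l _ hl
        rw [hdiag i l (Ne.symm hl), zero_mul]
      · intro h
        exact absurd (Finset.mem_univ _) h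
    rw [h1]
    apply mul_ne_zero (pow_ne_zero _ (by norm_num))
    rw [htr]
    intro h0
    apply hne
    have h2 := (Finset.sum_eq_zero_iff_of_nonneg fun i _ => sq_nonneg (D i i)).mp h0
    ext i l
    by_cases hil : i = l
    · subst hil
      exact pow_eq_zero_iff (two_ne_zero) |>.mp (h2 i (Finset.mem_univ i))
    · exact hdiag i l hil

theorem trace_ne {K : Type*} [Field K] [CharZero K] (a j : ℕ) (hj : j < a) :
    ((EE K a) ^ j * (adm (JJ K a) ^ (2 * j)) ((EE K a) ^ j)).trace ≠ 0 := by
  let φ : ℚ →+* K := algebraMap ℚ K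
  have hE : (EE ℚ a).map φ = EE K a := by
    ext i l
    simp only [EE, Matrix.map_apply, Matrix.of_apply]
    split_ifs <;> simp
  have hJ : (JJ ℚ a).map φ = JJ K a := by
    ext i l
    simp only [JJ, Matrix.map_apply, Matrix.of_apply]
    split_ifs <;> simp
  have hpow : ∀ k, ((EE ℚ a) ^ k).map φ = (EE K a) ^ k := by
    intro k
    rw [Matrix.map_pow, hE]
  have had : ∀ (k : ℕ) (Y : Matrix (Fin a) (Fin a) ℚ), ((adm (JJ ℚ a) ^ k) Y).map φ
      = (adm (JJ K a) ^ k) (Y.map φ) := by
    intro k
    induction k with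
    | zero => intro Y; rfl
    | succ k ih =>
      intro Y
      rw [pow_succ', Module.End.mul_apply, pow_succ', Module.End.mul_apply, adm_apply, adm_apply,
        Matrix.map_sub _ (map_sub φ), Matrix.map_mul, Matrix.map_mul, hJ, ih]
  have h1 : φ (((EE ℚ a) ^ j * (adm (JJ ℚ a) ^ (2 * j)) ((EE ℚ a) ^ j)).trace)
      = ((EE K a) ^ j * (adm (JJ K a) ^ (2 * j)) ((EE K a) ^ j)).trace := by
    rw [← hpow, ← had, ← Matrix.map_mul]
    exact AddMonoidHom.map_trace (φ : ℚ →+ K) _
  rw [← h1]
  intro h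
  exact trace_rat a j hj ((map_eq_zero φ).mp h)

end Pool.Agent.GP66
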