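import Pool.Agent.GP66.Chain
import Pool.Agent.GP66.Sl

/-!
The blocks of the Kronecker square of a similitude.
-/

namespace Pool.Agent.GP66

open Matrix Module Kronecker Pool.Agent.FS77

section
variable {K : Type*} [Field K] {κ : Type*} [Fintype κ] [DecidableEq κ]

/-- vectors as matrices -/
def WW : (κ × κ → K) →ₗ[K] Matrix κ κ K where
  toFun w := Matrix.of fun i k => w (i, k)
  map_add' _ _ := rfl
  map_smul' _ _ := rfl

theorem WW_kron (M : Matrix κ κ K) (w : κ × κ → K) :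
    WW (Matrix.toLin' (M ⊗ₖ M) w) = M * WW w * Mᵀ := by
  ext i k
  simp only [WW, LinearMap.coe_mk, AddHom.coe_mk, Matrix.of_apply, Matrix.toLin'_apply,
    Matrix.mulVec, dotProduct, Matrix.kroneckerMap_apply, Fintype.sum_prod_type, Matrix.mul_apply,
    Matrix.transpose_apply, Finset.sum_mul]
  rw [Finset.sum_comm]
  refine Finset.sum_congr rfl fun i' _ => Finset.sum_congr rfl fun k' _ => ?_
  ring

theorem adm_mul_right (n Y N : Matrix κ κ K) (hc : Commute n N) :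
    adm n (Y * N) = adm n Y * N := by
  rw [adm_apply, adm_apply, Matrix.sub_mul, Matrix.mul_assoc Y N n, ← hc.eq]
  simp only [Matrix.mul_assoc]

theorem adm_pow_mul_right (n Y N : Matrix κ κ K) (hc : Commute n N) (k : ℕ) :
    (adm n ^ k) (Y * N) = (adm n ^ k) Y * N := by
  induction k with
  | zero => rfl
  | succ k ih =>
    rw [pow_succ', Module.End.mul_apply, ih, adm_mul_right _ _ _ hc, ← Module.End.mul_apply,
      ← pow_succ']

theorem sq_blk [CharZero K] (M P n : Matrix κ κ K) (q μ : K) (hM : M.det ≠ 0) (hP : P.det ≠ 0)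
    (hq : q ≠ 0) (h : Mᵀ * P * M = q • P) (s : ℕ) (Vm : Matrix κ (Fin (s + 1)) K)
    (Pm : Matrix (Fin (s + 1)) κ K) (hn : n = M - μ • (1 : Matrix κ κ K)) (h1 : Pm * Vm = 1)
    (h2 : n * Vm = Vm * JJ K (s + 1)) (h3 : Pm * n = JJ K (s + 1) * Pm) (j : ℕ)
    (hj : j < s + 1) : blk (M ⊗ₖ M) q (2 * j + 1) ≠ 0 := by
  set E := (EE K (s + 1)) ^ j with hE
  obtain ⟨Z, hZ⟩ : ∃ Z, Z = Vm * E * Pm := ⟨_, rfl⟩
  have had : ∀ (k : ℕ) (Y : Matrix (Fin (s + 1)) (Fin (s + 1)) K),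
      (adm n ^ k) (Vm * Y * Pm) = Vm * ((adm (JJ K (s + 1)) ^ k) Y) * Pm := by
    intro k
    induction k with
    | zero => intro Y; rfl
    | succ k ih =>
      intro Y
      rw [pow_succ', Module.End.mul_apply, ih, pow_succ', Module.End.mul_apply, adm_apply,
        adm_apply, Matrix.mul_sub, Matrix.sub_mul]
      congr 1
      · rw [← Matrix.mul_assoc, ← Matrix.mul_assoc, h2]
        simp only [Matrix.mul_assoc]
      · rw [Matrix.mul_assoc, h3]
        simp only [Matrix.mul_assoc]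
  have hMM : M * M⁻¹ = 1 := Matrix.mul_nonsing_inv M (isUnit_iff_ne_zero.mpr hM)
  have hMM' : M⁻¹ * M = 1 := Matrix.nonsing_inv_mul M (isUnit_iff_ne_zero.mpr hM)
  have hPP : P * P⁻¹ = 1 := Matrix.mul_nonsing_inv P (isUnit_iff_ne_zero.mpr hP)
  have hPP' : P⁻¹ * P = 1 := Matrix.nonsing_inv_mul P (isUnit_iff_ne_zero.mpr hP)
  have hcM : Commute n M⁻¹ := by
    rw [hn]
    apply Commute.sub_left
    · exact hMM.trans hMM'.symm
    · exact (Commute.one_left M⁻¹).smul_left μ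
  set Θ : (κ × κ → K) →ₗ[K] Matrix κ κ K := (LinearMap.mulRight K P) ∘ₗ WW with hΘ
  have hΘa : ∀ w, Θ w = WW w * P := fun w => rfl
  have hMP : Mᵀ * P = q • (P * M⁻¹) := by
    calc Mᵀ * P = Mᵀ * P * (M * M⁻¹) := by rw [hMM, Matrix.mul_one]
      _ = (Mᵀ * P * M) * M⁻¹ := by simp only [Matrix.mul_assoc]
      _ = q • (P * M⁻¹) := by rw [h, Matrix.smul_mul]
  have hstep : ∀ w, Θ (TT (M ⊗ₖ M) q w) = q • (adm n (Θ w) * M⁻¹) := by
    intro w
    have e1 : TT (M ⊗ₖ M) q w = Matrix.toLin' (M ⊗ₖ M) w - q • w := rfl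
    have e2 : adm n (Θ w) = M * Θ w - Θ w * M := by
      rw [adm_apply, hn, Matrix.sub_mul, Matrix.mul_sub, Matrix.smul_mul, Matrix.mul_smul,
        Matrix.one_mul, Matrix.mul_one]
      abel
    rw [e1, map_sub, map_smul, e2, hΘa, hΘa, WW_kron, Matrix.mul_assoc, hMP, Matrix.mul_smul,
      ← smul_sub, Matrix.sub_mul]
    congr 2
    · simp only [Matrix.mul_assoc]
    · rw [Matrix.mul_assoc (WW w * P), hMM, Matrix.mul_one]
  have hpow : ∀ (k : ℕ) (w : κ × κ → K), Θ ((TT (M ⊗ₖ M) q ^ k) w)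
      = q ^ k • ((adm n ^ k) (Θ w) * (M⁻¹) ^ k) := by
    intro k
    induction k with
    | zero => intro w; simp
    | succ k ih =>
      intro w
      rw [pow_succ', Module.End.mul_apply, hstep, ih, map_smul,
        adm_mul_right _ _ _ (hcM.pow_right k), Matrix.smul_mul, smul_smul, ← pow_succ',
        Matrix.mul_assoc, ← pow_succ, ← Module.End.mul_apply, ← pow_succ']
  have hinj : ∀ w, Θ w = 0 → w = 0 := by
    intro w hw
    have e1 : WW w = 0 := by
      calc WW w = WW w * (P * P⁻¹) := by rw [hPP, Matrix.mul_one]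
        _ = (WW w * P) * P⁻¹ := by rw [Matrix.mul_assoc]
        _ = 0 := by rw [← hΘa, hw, Matrix.zero_mul]
    ext ⟨i, k⟩
    exact congrFun (congrFun e1 i) k
  set x : κ × κ → K := fun p => (Z * P⁻¹) p.1 p.2 with hx
  have hΘx : Θ x = Z := by
    have e1 : WW x = Z * P⁻¹ := rfl
    rw [hΘa, e1, Matrix.mul_assoc, hPP', Matrix.mul_one]
  set ψ : (κ × κ → K) →ₗ[K] K := (Matrix.traceLinearMap κ K K) ∘ₗ
    (LinearMap.mulLeft K (M ^ (2 * j) * Z)) ∘ₗ Θ with hψ
  have hψa : ∀ (k : ℕ) (w : κ × κ → K), ψ ((TT (M ⊗ₖ M) q ^ k) w)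
      = q ^ k * (Z * ((adm n ^ k) (Θ w) * (M⁻¹) ^ k * M ^ (2 * j))).trace := by
    intro k w
    have e1 : ψ ((TT (M ⊗ₖ M) q ^ k) w)
        = ((M ^ (2 * j) * Z) * Θ ((TT (M ⊗ₖ M) q ^ k) w)).trace := rfl
    rw [e1, hpow, Matrix.mul_smul, Matrix.trace_smul, smul_eq_mul, Matrix.mul_assoc,
      Matrix.trace_mul_comm (M ^ (2 * j)), Matrix.mul_assoc Z]
  have hinvpow : ∀ k, (M⁻¹) ^ k * M ^ k = 1 := by
    intro k
    have hc : Commute M⁻¹ M := hMM'.trans hMM.symm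
    rw [← hc.mul_pow, hMM', one_pow]
  have hz : (adm n ^ (2 * j + 1)) Z = 0 := by
    rw [hZ, had, hE, adm_zero (s + 1) j hj, Matrix.mul_zero, Matrix.zero_mul]
  apply blk_ne_zero (M ⊗ₖ M) q (2 * j) x ψ
  · apply hinj
    rw [hpow, hΘx, hz, Matrix.zero_mul, smul_zero]
  · intro y
    rw [hψa, pow_succ' M⁻¹, Matrix.mul_assoc ((adm n ^ (2 * j + 1)) (Θ y)), Matrix.mul_assoc M⁻¹,
      hinvpow, Matrix.mul_one,
      ← adm_pow_mul_right _ _ _ hcM, trace_adm_pow, hz, Matrix.zero_mul, Matrix.trace_zero,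
      mul_zero, mul_zero]
  · rw [hψa, hΘx, Matrix.mul_assoc ((adm n ^ (2 * j)) Z), hinvpow, Matrix.mul_one]
    apply mul_ne_zero (pow_ne_zero _ hq)
    have e1 : (Z * (adm n ^ (2 * j)) Z).trace
        = (E * (adm (JJ K (s + 1)) ^ (2 * j)) E).trace := by
      rw [hZ, had]
      set X := (adm (JJ K (s + 1)) ^ (2 * j)) E
      calc (Vm * E * Pm * (Vm * X * Pm)).trace
          = (Vm * (E * (Pm * Vm) * X * Pm)).trace := by simp only [Matrix.mul_assoc]
        _ = (E * X * (Pm * Vm)).trace := by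
            rw [h1, Matrix.mul_one, Matrix.trace_mul_comm, Matrix.mul_assoc (E * X), h1]
        _ = (E * X).trace := by rw [h1, Matrix.mul_one]
    rw [e1]
    exact trace_ne (s + 1) j hj

end

end Pool.Agent.GP66
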